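import Pool.Agent.Q136.FracTransEx

/-!
# MP_efe87e_co: the fractional transversal game number can exceed the integer one

Hypergraph: the path `1 - 2 - 3 - 4` with loops at `1` and `4`, a loop `0`, a loop `5` and the edge
`56`.  The integer transversal game lasts at most `5` moves under optimal play, while in the
fractional game Staller guarantees `31/6`.
-/

namespace Pool.Agent.Results.MP_efe87e_co.FractionalAboveInteger

open Pool.Agent.Q136.FracTrans

/-! ## The integer transversal game -/

/-- Every edge contains a picked vertex. -/
def AllCovered {V : Type} (H : FinHypergraph V) (T : Finset V) : Prop :=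
  ∀ E ∈ H.edges, ∃ v ∈ E, v ∈ T

/-- The vertex `v` lies in an edge that is not yet covered by the picked vertices `T`. -/
def LegalPick {V : Type} (H : FinHypergraph V) (T : Finset V) (v : V) : Prop :=
  ∃ E ∈ H.edges, v ∈ E ∧ ∀ u ∈ E, u ∉ T

/-- `IntCan H p T n`: in the integer transversal game with picked vertices `T` and player `p` to
move, Edge-hitter can guarantee that at most `n` further vertices are picked. -/
inductive IntCan {V : Type} [DecidableEq V] (H : FinHypergraph V) : Player → Finset V → ℕ → Prop
  | done (p : Player) (T : Finset V) (n : ℕ) : AllCovered H T → IntCan H p T n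
  | hitter (T : Finset V) (n : ℕ) (v : V) : ¬ AllCovered H T → LegalPick H T v →
      IntCan H Player.staller (insert v T) n → IntCan H Player.hitter T (n + 1)
  | staller (T : Finset V) (n : ℕ) : ¬ AllCovered H T →
      (∀ v, LegalPick H T v → IntCan H Player.hitter (insert v T) n) →
      IntCan H Player.staller T (n + 1)

/-- The game transversal number `τ_g(H)` (Edge-hitter starts): the least length of the game that
Edge-hitter can guarantee. -/
noncomputable def tauG {V : Type} [DecidableEq V] (H : FinHypergraph V) : ℕ :=
  sInf {n : ℕ | IntCan H Player.hitter ∅ n}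

/-- The fractional game transversal number `τ*_g(H)` (Edge-hitter starts from the zero cover
function). -/
noncomputable def tauGStar {V : Type} (H : FinHypergraph V) : ℝ :=
  value H Player.hitter (fun _ => 0)

/-! ## A decision procedure for the example -/

def El : List (List (Fin 7)) := [[0], [1], [1, 2], [2, 3], [3, 4], [4], [5], [5, 6]]

def cov (T : Finset (Fin 7)) : Bool := El.all fun E => E.any fun v => decide (v ∈ T)

def leg (T : Finset (Fin 7)) (v : Fin 7) : Bool :=
  El.any fun E => E.contains v && E.all fun u => decide (u ∉ T)

def Vl : List (Fin 7) := [5, 0, 1, 2, 3, 4, 6]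

def can : ℕ → Bool → Finset (Fin 7) → Bool
  | 0, _, T => cov T
  | n + 1, true, T => cov T || Vl.any fun v => leg T v && can n false (insert v T)
  | n + 1, false, T => cov T || Vl.all fun v => !leg T v || can n true (insert v T)

lemma cov_iff (T : Finset (Fin 7)) : cov T = true ↔ AllCovered Ex.H T := by
  simp [cov, El, AllCovered, Ex.H]

lemma leg_iff (T : Finset (Fin 7)) (v : Fin 7) : leg T v = true ↔ LegalPick Ex.H T v := by
  simp [leg, El, LegalPick, Ex.H]

def pl : Bool → Player
  | true => Player.hitter
  | false => Player.staller

lemma mem_Vl (v : Fin 7) : v ∈ Vl := by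
  revert v; decide

lemma can_sound (n : ℕ) : ∀ (b : Bool) (T : Finset (Fin 7)), can n b T = true →
    IntCan Ex.H (pl b) T n := by
  induction n with
  | zero =>
    intro b T h
    exact IntCan.done _ _ _ ((cov_iff T).mp (by simpa [can] using h))
  | succ n ih =>
    intro b T h
    by_cases hc : cov T = true
    · exact IntCan.done _ _ _ ((cov_iff T).mp hc)
    have hc' : ¬ AllCovered Ex.H T := fun h' => hc ((cov_iff T).mpr h')
    cases b with
    | true =>
      rw [can, Bool.or_eq_true] at h
      rcases h with h | h
      · exact absurd h hc
      rw [List.any_eq_true] at h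
      obtain ⟨v, _, hv⟩ := h
      rw [Bool.and_eq_true] at hv
      exact IntCan.hitter _ _ v hc' ((leg_iff T v).mp hv.1) (ih false _ hv.2)
    | false =>
      rw [can, Bool.or_eq_true] at h
      rcases h with h | h
      · exact absurd h hc
      rw [List.all_eq_true] at h
      refine IntCan.staller _ _ hc' fun v hv => ?_
      have h2 := h v (mem_Vl v)
      rw [Bool.or_eq_true] at h2
      rcases h2 with h2 | h2
      · have := (leg_iff T v).mpr hv
        rw [this] at h2
        simp at h2
      · exact ih true _ h2

lemma int_five : IntCan Ex.H Player.hitter ∅ 5 :=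
  can_sound 5 true ∅ (by decide +kernel)

lemma tauG_le : tauG Ex.H ≤ 5 := Nat.sInf_le int_five

/-- There is a finite hypergraph with `τ*_g(H) > τ_g(H)`. Moreover (numbers): in the fractional
game Staller can guarantee `31/6`, in the integer game Edge-hitter can guarantee at most `5`
moves. -/
theorem result : ∃ H : FinHypergraph (Fin 7), (tauG H : ℝ) < tauGStar H ∧
    StallerCan H Player.hitter (fun _ => 0) (31 / 6) ∧ IntCan H Player.hitter ∅ 5 := by
  refine ⟨Ex.H, ?_, Ex.staller_zero, int_five⟩
  have h1 : (tauG Ex.H : ℝ) ≤ 5 := by exact_mod_cast tauG_le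
  have h2 : (31 / 6 : ℝ) ≤ tauGStar Ex.H := Ex.le_value (fun _ => le_refl _) Ex.staller_zero
  linarith

end Pool.Agent.Results.MP_efe87e_co.FractionalAboveInteger
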